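import Pool.Agent.UL7.Stmts

/-!
Squad UL7 (MP_c7c9bf_co), row RSP (helper66): Rogers-Shephard in the plane (twin of RSA, RSB, RSC of UL4).
-/

set_option autoImplicit false

namespace Pool.Agent.UL7.H66

open MeasureTheory Set Pool.Agent.UL4
open scoped Pointwise

/-- the one variable integral on `[0,1]` -/
theorem int_one : ∫ u in (0 : ℝ)..1, (1 - u ^ ((1 : ℝ) / 2)) ^ 2 = 1 / 6 := by
  have h1 : ∫ u in (0 : ℝ)..1, (1 - u ^ ((1 : ℝ) / 2)) ^ 2 =
      ∫ u in (0 : ℝ)..1, ((1 - 2 * u ^ ((1 : ℝ) / 2)) + u ^ (1 : ℝ)) := by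
    refine intervalIntegral.integral_congr fun u hu => ?_
    rw [uIcc_of_le zero_le_one] at hu
    have h2 : u ^ (1 : ℝ) = (u ^ ((1 : ℝ) / 2)) ^ 2 := by
      rw [← Real.rpow_natCast, ← Real.rpow_mul hu.1]
      norm_num
    show (1 - u ^ ((1 : ℝ) / 2)) ^ 2 = (1 - 2 * u ^ ((1 : ℝ) / 2)) + u ^ (1 : ℝ)
    rw [h2]
    ring
  have i1 : IntervalIntegrable (fun u : ℝ => u ^ ((1 : ℝ) / 2)) volume 0 1 :=
    intervalIntegral.intervalIntegrable_rpow' (by norm_num)
  have i2 : IntervalIntegrable (fun u : ℝ => u ^ (1 : ℝ)) volume 0 1 :=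
    intervalIntegral.intervalIntegrable_rpow' (by norm_num)
  rw [h1, intervalIntegral.integral_add (intervalIntegrable_const.sub (i1.const_mul 2)) i2,
    intervalIntegral.integral_sub intervalIntegrable_const (i1.const_mul 2),
    intervalIntegral.integral_const_mul, intervalIntegral.integral_const,
    integral_rpow (Or.inl (by norm_num)), integral_rpow (Or.inl (by norm_num)),
    Real.one_rpow, Real.one_rpow, Real.zero_rpow (by norm_num), Real.zero_rpow (by norm_num)]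
  norm_num

theorem int_sq (v : ℝ) (hv : 0 < v) :
    ∫ l in (0 : ℝ)..v, 4 * (1 - (l / v) ^ ((1 : ℝ) / 2)) ^ 2 = 2 * v / 3 := by
  have h1 := intervalIntegral.integral_comp_div (a := 0) (b := v) (c := v)
    (fun u : ℝ => (1 - u ^ ((1 : ℝ) / 2)) ^ 2) hv.ne'
  rw [zero_div, div_self hv.ne', int_one] at h1
  rw [intervalIntegral.integral_const_mul, h1, smul_eq_mul]
  ring

theorem cont_phi (v : ℝ) : Continuous fun l : ℝ => 4 * (1 - (l / v) ^ ((1 : ℝ) / 2)) ^ 2 := by
  have h1 : Continuous fun l : ℝ => (l / v) ^ ((1 : ℝ) / 2) :=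
    (continuous_id.div_const v).rpow_const fun x => Or.inr (by norm_num)
  exact continuous_const.mul ((continuous_const.sub h1).pow 2)

theorem fr : Module.finrank ℝ (ℝ × ℝ) = 2 := by
  rw [Module.finrank_prod, Module.finrank_self]

theorem dh_compact {A : Set (ℝ × ℝ)} (hA : IsCompact A) : IsCompact (dh A) := by
  have h1 : dh A = (fun q : (ℝ × ℝ) × (ℝ × ℝ) => (1 / 2 : ℝ) • (q.1 - q.2)) '' (A ×ˢ A) := by
    ext p
    constructor
    · rintro ⟨a, ha, b, hb, rfl⟩
      exact ⟨(a, b), ⟨ha, hb⟩, rfl⟩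
    · rintro ⟨q, hq, rfl⟩
      exact ⟨q.1, hq.1, q.2, hq.2, rfl⟩
  rw [h1]
  exact (hA.prod hA).image (by fun_prop)

/-- planar row RSB -/
theorem rsb {A : Set (ℝ × ℝ)} (hA : Convex ℝ A) {a b : ℝ × ℝ} (ha : a ∈ A) (hb : b ∈ A) {r : ℝ}
    (h0 : 0 ≤ r) (h1 : r ≤ 1) :
    ENNReal.ofReal (r ^ 2) * (volume : Measure (ℝ × ℝ)) A ≤
      (volume : Measure (ℝ × ℝ)) {y | y ∈ A ∧ y - (1 - r) • (a - b) ∈ A} := by
  have h := Measure.addHaar_image_homothety (volume : Measure (ℝ × ℝ)) a r A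
  rw [fr, abs_of_nonneg (sq_nonneg _)] at h
  rw [← h]
  refine measure_mono ?_
  rintro _ ⟨z, hz, rfl⟩
  have e1 : AffineMap.homothety a r z = r • z + (1 - r) • a := by
    rw [AffineMap.homothety_apply, vsub_eq_sub, vadd_eq_add, smul_sub, sub_smul, one_smul]
    abel
  have e2 : AffineMap.homothety a r z - (1 - r) • (a - b) = r • z + (1 - r) • b := by
    rw [e1, smul_sub]
    abel
  refine ⟨?_, ?_⟩
  · rw [e1]
    exact hA hz ha h0 (by linarith) (by ring)
  · rw [e2]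
    exact hA hz hb h0 (by linarith) (by ring)

/-- planar row RSA -/
theorem rsa {A : Set (ℝ × ℝ)} (hA : IsCompact A) :
    ∫⁻ x : ℝ × ℝ, (volume : Measure (ℝ × ℝ)) {y | y ∈ A ∧ y - x ∈ A} =
      (volume : Measure (ℝ × ℝ)) A * (volume : Measure (ℝ × ℝ)) A := by
  have hm : MeasurableSet A := hA.isClosed.measurableSet
  obtain ⟨g, hg⟩ : ∃ g : ℝ × ℝ → ENNReal, g = A.indicator (fun _ => 1) := ⟨_, rfl⟩
  have hgm : Measurable g := by
    rw [hg]
    exact measurable_const.indicator hm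
  have hgi : ∫⁻ p, g p = (volume : Measure (ℝ × ℝ)) A := by
    rw [hg, lintegral_indicator hm, setLIntegral_const, one_mul]
  have h1 : ∀ x : ℝ × ℝ, (volume : Measure (ℝ × ℝ)) {y | y ∈ A ∧ y - x ∈ A} =
      ∫⁻ p : ℝ × ℝ, g p * g (p - x) := by
    intro x
    have hmap : Measurable fun q : ℝ × ℝ => q - x := by fun_prop
    have hD : MeasurableSet {y | y ∈ A ∧ y - x ∈ A} := hm.inter (hmap hm)
    rw [← lintegral_indicator_one hD]
    refine lintegral_congr fun p => ?_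
    rw [hg]
    by_cases ha : p ∈ A
    · by_cases hb : p - x ∈ A
      · have h : p ∈ {y | y ∈ A ∧ y - x ∈ A} := ⟨ha, hb⟩
        rw [indicator_of_mem h, indicator_of_mem ha, indicator_of_mem hb, mul_one]
        rfl
      · have h : p ∉ {y | y ∈ A ∧ y - x ∈ A} := fun h => hb h.2
        rw [indicator_of_notMem h, indicator_of_notMem hb, mul_zero]
    · have h : p ∉ {y | y ∈ A ∧ y - x ∈ A} := fun h => ha h.1
      rw [indicator_of_notMem h, indicator_of_notMem ha, zero_mul]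
  simp only [h1]
  rw [lintegral_lintegral_swap]
  · have h3 : ∀ p : ℝ × ℝ, ∫⁻ x : ℝ × ℝ, g p * g (p - x) =
        g p * (volume : Measure (ℝ × ℝ)) A := by
      intro p
      rw [lintegral_const_mul _ (by fun_prop), ← hgi]
      rw [lintegral_sub_left_eq_self (fun q => g q) p]
    simp only [h3]
    rw [lintegral_mul_const _ hgm, hgi]
  · have : Measurable fun z : (ℝ × ℝ) × (ℝ × ℝ) => g z.2 * g (z.2 - z.1) := by fun_prop
    exact this.aemeasurable

theorem rsp : RspStmt := by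
  intro A hA
  have hV : (volume : Measure (ℝ × ℝ)) A < ⊤ := hA.cpt.measure_lt_top
  obtain ⟨v, hv⟩ : ∃ v : ℝ, v = ar A := ⟨_, rfl⟩
  have hv' : ENNReal.ofReal v = (volume : Measure (ℝ × ℝ)) A := by
    rw [hv]
    exact ENNReal.ofReal_toReal hV.ne
  have hvpos : 0 < v := by
    have h4 : 0 < (volume : Measure (ℝ × ℝ)) A :=
      (isOpen_interior.measure_pos _ hA.int).trans_le (measure_mono interior_subset)
    rw [hv]
    exact ENNReal.toReal_pos h4.ne' hV.ne
  have hSfin : (volume : Measure (ℝ × ℝ)) (dh A) < ⊤ := (dh_compact hA.cpt).measure_lt_top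
  obtain ⟨g, hg⟩ : ∃ g : ℝ × ℝ → ENNReal,
      g = fun x => (volume : Measure (ℝ × ℝ)) {y | y ∈ A ∧ y - x ∈ A} := ⟨_, rfl⟩
  have hgle : ∀ x, g x ≤ (volume : Measure (ℝ × ℝ)) A := by
    intro x
    rw [hg]
    exact measure_mono fun y hy => hy.1
  have hgfin : ∀ x, g x ≠ ⊤ := fun x => ((hgle x).trans_lt hV).ne
  have hgm : Measurable g := by
    have hcl : IsClosed {q : (ℝ × ℝ) × (ℝ × ℝ) | q.2 ∈ A ∧ q.2 - q.1 ∈ A} := by
      have c1 : IsClosed {q : (ℝ × ℝ) × (ℝ × ℝ) | q.2 ∈ A} :=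
        hA.cpt.isClosed.preimage continuous_snd
      have c2 : IsClosed {q : (ℝ × ℝ) × (ℝ × ℝ) | q.2 - q.1 ∈ A} :=
        hA.cpt.isClosed.preimage (continuous_snd.sub continuous_fst)
      exact c1.inter c2
    rw [hg]
    exact measurable_measure_prodMk_left hcl.measurableSet
  have hrsa : ∫⁻ x, g x = (volume : Measure (ℝ × ℝ)) A * (volume : Measure (ℝ × ℝ)) A := by
    rw [hg]
    exact rsa hA.cpt
  have hlc : ∫⁻ x, g x =
      ∫⁻ l in Ioi (0 : ℝ), (volume : Measure (ℝ × ℝ)) {x | l ≤ (g x).toReal} := by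
    have h5 := lintegral_eq_lintegral_meas_le (volume : Measure (ℝ × ℝ))
      (f := fun x => (g x).toReal) (Filter.Eventually.of_forall fun x => ENNReal.toReal_nonneg)
      hgm.ennreal_toReal.aemeasurable
    rw [← h5]
    exact lintegral_congr fun x => (ENNReal.ofReal_toReal (hgfin x)).symm
  have hlow : ∀ l ∈ Ioo (0 : ℝ) v,
      ENNReal.ofReal (4 * (1 - (l / v) ^ ((1 : ℝ) / 2)) ^ 2) *
        (volume : Measure (ℝ × ℝ)) (dh A) ≤
        (volume : Measure (ℝ × ℝ)) {x | l ≤ (g x).toReal} := by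
    intro l hl
    obtain ⟨r, hr⟩ : ∃ r : ℝ, r = (l / v) ^ ((1 : ℝ) / 2) := ⟨_, rfl⟩
    have hq0 : 0 ≤ l / v := div_nonneg hl.1.le hvpos.le
    have hr0 : 0 ≤ r := by
      rw [hr]
      exact Real.rpow_nonneg hq0 _
    have hr1 : r ≤ 1 := by
      rw [hr]
      exact Real.rpow_le_one hq0 ((div_le_one hvpos).2 hl.2.le) (by norm_num)
    have hr2 : r ^ 2 * v = l := by
      have h4 : r ^ 2 = l / v := by
        rw [hr, ← Real.rpow_natCast, ← Real.rpow_mul hq0]
        norm_num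
      rw [h4]
      exact div_mul_cancel₀ l hvpos.ne'
    rw [← hr]
    have hsub : (2 * (1 - r)) • dh A ⊆ {x | l ≤ (g x).toReal} := by
      rintro _ ⟨p, ⟨a, ha, b, hb, rfl⟩, rfl⟩
      have e : (2 * (1 - r)) • ((1 / 2 : ℝ) • (a - b)) = (1 - r) • (a - b) := by
        rw [smul_smul]
        congr 1
        ring
      have h4 := rsb hA.cvx ha hb hr0 hr1
      show l ≤ (g ((2 * (1 - r)) • ((1 / 2 : ℝ) • (a - b)))).toReal
      rw [e]
      have h5 : ENNReal.ofReal l ≤ g ((1 - r) • (a - b)) := by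
        rw [← hr2, ENNReal.ofReal_mul (sq_nonneg r), hv', hg]
        exact h4
      exact (ENNReal.ofReal_le_iff_le_toReal (hgfin _)).1 h5
    have hm := Measure.addHaar_smul (volume : Measure (ℝ × ℝ)) (2 * (1 - r)) (dh A)
    rw [fr, abs_of_nonneg (sq_nonneg _)] at hm
    have e4 : (2 * (1 - r)) ^ 2 = 4 * (1 - r) ^ 2 := by ring
    rw [e4] at hm
    rw [← hm]
    exact measure_mono hsub
  have hphi : ∫⁻ l in Ioo (0 : ℝ) v, ENNReal.ofReal (4 * (1 - (l / v) ^ ((1 : ℝ) / 2)) ^ 2) =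
      ENNReal.ofReal (2 * v / 3) := by
    rw [← ofReal_integral_eq_lintegral_ofReal]
    · rw [← integral_Ioc_eq_integral_Ioo, ← intervalIntegral.integral_of_le hvpos.le,
        int_sq v hvpos]
    · exact ((cont_phi v).integrableOn_Icc (a := 0) (b := v)).mono_set Ioo_subset_Icc_self
    · exact Filter.Eventually.of_forall fun l => by positivity
  have hmain : ENNReal.ofReal (2 * v / 3) * (volume : Measure (ℝ × ℝ)) (dh A) ≤
      (volume : Measure (ℝ × ℝ)) A * (volume : Measure (ℝ × ℝ)) A := by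
    rw [← hrsa, hlc, ← hphi, ← lintegral_mul_const']
    · refine (setLIntegral_mono' measurableSet_Ioo hlow).trans ?_
      exact lintegral_mono_set Ioo_subset_Ioi_self
    · exact hSfin.ne
  have h7 : ENNReal.ofReal (2 * v / 3 * ar (dh A)) ≤ ENNReal.ofReal (v * v) := by
    rw [ENNReal.ofReal_mul (by positivity), ENNReal.ofReal_mul hvpos.le, hv']
    show ENNReal.ofReal (2 * v / 3) *
      ENNReal.ofReal ((volume : Measure (ℝ × ℝ)) (dh A)).toReal ≤ _
    rw [ENNReal.ofReal_toReal hSfin.ne]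
    exact hmain
  have h8 := (ENNReal.ofReal_le_ofReal_iff (by positivity)).1 h7
  rw [← hv]
  have h9 : v * (2 * ar (dh A)) ≤ v * (3 * v) := by nlinarith
  exact le_of_mul_le_mul_left h9 hvpos

end Pool.Agent.UL7.H66
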